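import Pool.Agent.helper91.SI.Spec5
import Pool.Agent.helper91.SI.FIN

set_option autoImplicit false

namespace Pool.Agent.helper91.SI

open Pool.Agent.helper20.IG (IsIndepDom IsISet iGraph)

theorem SZN (hSTA : STA_stmt) (hSTB : STB_stmt) (hTRF : TRF_stmt) (hPA1 : PA1_stmt)
    (hCA1 : CA1_stmt) (hSM2 : SM2_stmt) (hCPN : CPN_stmt) (hCCN : CCN_stmt) : SZN_stmt := by
  intro W _ _ H hconn n3 n4 n6 hT hI4 hIT hadj
  obtain ⟨n, f, hf⟩ := hSTA W H hconn hT
  have hcard : Nat.card W = n := by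
    rw [← Nat.card_congr f, Nat.card_fin]
  have hn0 : n ≠ 0 := by
    rintro rfl
    obtain ⟨v⟩ := hconn.nonempty
    exact (f.symm v).elim0
  rw [hcard]
  rcases hSTB W H n f hf hT with ⟨⟨g⟩⟩ | ⟨hn, ⟨g⟩⟩
  · obtain ⟨t⟩ := hTRF (Fin n) W (SimpleGraph.pathGraph n) H ⟨g⟩
    have hI4' : NoC4 (iGraph (SimpleGraph.pathGraph n)) := FIN_noC4 _ _ t hI4
    have hc2 : Nat.card {S // IsISet (SimpleGraph.pathGraph n) S} = Nat.card {S // IsISet H S} :=
      Nat.card_congr t.toEquiv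
    rw [← hc2]
    refine hCPN n (by omega) ?_
    by_cases hm : n % 3 = 1
    · right
      rcases Nat.lt_or_ge n 7 with h7 | h7
      · omega
      · exact absurd hI4' (hPA1 n h7 hm)
    · left
      exact hm
  · obtain ⟨m3, m4, m6⟩ := hSM2 W H n n3 n4 n6 ⟨g⟩
    obtain ⟨t⟩ := hTRF (Fin n) W (SimpleGraph.cycleGraph n) H ⟨g⟩
    have hc2 : Nat.card {S // IsISet (SimpleGraph.cycleGraph n) S} = Nat.card {S // IsISet H S} :=
      Nat.card_congr t.toEquiv
    rw [← hc2]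
    refine hCCN n (by omega) ?_ m6 ?_
    · by_cases hm : n % 3 = 1
      · right
        rcases Nat.lt_or_ge n 10 with h7 | h7
        · omega
        · exact absurd (FIN_three _ _ t (hCA1 n h7 hm)) hIT
      · left
        exact hm
    · obtain ⟨X, Y, hXY⟩ := hadj
      exact ⟨t.symm X, t.symm Y, t.symm.map_rel_iff.2 hXY⟩

end Pool.Agent.helper91.SI
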